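import Pool.Agent.COV.StmtsB

set_option autoImplicit false

namespace Pool.Agent.COV.H68

open Polynomial Pool.Agent.KDT.Z IntermediateField

section

variable {k U : Type} [Field k] [Field U] [Algebra k U]

/-- the field of the functions fixed by all automorphisms which move x inside Xi -/
noncomputable def EE (ev : RatFunc k →ₐ[k] U) (Ξ : Finset U) : IntermediateField k (RatFunc k) where
  carrier := {φ | ∀ σ : U ≃ₐ[k] U, σ (ev RatFunc.X) ∈ Ξ → σ (ev φ) = ev φ}
  mul_mem' := by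
    intro a b ha hb σ hσ
    rw [map_mul, map_mul, ha σ hσ, hb σ hσ]
  add_mem' := by
    intro a b ha hb σ hσ
    rw [map_add, map_add, ha σ hσ, hb σ hσ]
  algebraMap_mem' := by
    intro r σ _
    rw [AlgHom.commutes, AlgEquiv.commutes]
  inv_mem' := by
    intro a ha σ hσ
    rw [map_inv₀, map_inv₀, ha σ hσ]

theorem mem_EE (ev : RatFunc k →ₐ[k] U) (Ξ : Finset U) (φ : RatFunc k) :
    φ ∈ EE ev Ξ ↔ ∀ σ : U ≃ₐ[k] U, σ (ev RatFunc.X) ∈ Ξ → σ (ev φ) = ev φ := Iff.rfl

/-- the embedding of E in U -/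
noncomputable def io (ev : RatFunc k →ₐ[k] U) (Ξ : Finset U) : EE ev Ξ →+* U :=
  (ev : RatFunc k →+* U).comp (algebraMap (EE ev Ξ) (RatFunc k))

theorem io_apply (ev : RatFunc k →ₐ[k] U) (Ξ : Finset U) (a : EE ev Ξ) :
    io ev Ξ a = ev (a : RatFunc k) := rfl

theorem ev_aeval (ev : RatFunc k →ₐ[k] U) (Ξ : Finset U) (m : (EE ev Ξ)[X]) :
    ev (aeval (RatFunc.X : RatFunc k) m) = eval₂ (io ev Ξ) (ev RatFunc.X) m := by
  have h := Polynomial.hom_eval₂ m (algebraMap (EE ev Ξ) (RatFunc k)) (ev : RatFunc k →+* U)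
    (RatFunc.X : RatFunc k)
  exact h

theorem prod_map (ev : RatFunc k →ₐ[k] U) (Ξ : Finset U)
    (hΞ : ∀ σ : U ≃ₐ[k] U, σ (ev RatFunc.X) ∈ Ξ → ∀ y ∈ Ξ, σ y ∈ Ξ)
    (σ : U ≃ₐ[k] U) (hσ : σ (ev RatFunc.X) ∈ Ξ) :
    (∏ y ∈ Ξ, (X - C y)).map (σ : U →+* U) = ∏ y ∈ Ξ, (X - C y) := by
  classical
  have him : Ξ.image σ = Ξ := by
    apply Finset.eq_of_subset_of_card_le
    · intro y hy
      obtain ⟨z, hz, rfl⟩ := Finset.mem_image.mp hy
      exact hΞ σ hσ z hz
    · rw [Finset.card_image_of_injective _ σ.injective]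
  rw [Polynomial.map_prod]
  have h1 : ∀ y ∈ Ξ, ((X - C y : U[X])).map (σ : U →+* U) = X - C (σ y) := by
    intro y _
    rw [Polynomial.map_sub, Polynomial.map_X, Polynomial.map_C]
    rfl
  rw [Finset.prod_congr rfl h1]
  conv_rhs => rw [← him]
  rw [Finset.prod_image (fun a _ b _ h => σ.injective h)]

end

theorem lur (hF : FixStmt) : LurStmt := by
  intro k U _ _ _ f g env ev Ξ hx hr hΞ
  have := env.kc
  have := env.oc
  have := env.ch
  obtain ⟨-, hF2, hF3⟩ := hF k U f g env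
  have hxr : ev RatFunc.X ∉ (algebraMap k U).range := hr _ hx
  set E := EE ev Ξ with hE
  -- the polynomial
  have hlift : (∏ y ∈ Ξ, (X - C y) : U[X]) ∈ lifts (io ev Ξ) := by
    rw [lifts_iff_coeff_lifts]
    intro n
    have hfix : ∀ σ : U ≃ₐ[k] U, σ (ev RatFunc.X) ∈ Ξ →
        σ ((∏ y ∈ Ξ, (X - C y) : U[X]).coeff n) = (∏ y ∈ Ξ, (X - C y) : U[X]).coeff n := by
      intro σ hσ
      have h := congrArg (fun p : U[X] => p.coeff n) (prod_map ev Ξ hΞ σ hσ)
      simp only [coeff_map] at h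
      exact h
    obtain ⟨r, hr'⟩ := hF2 ev hxr _ (fun σ hσ => hfix σ (by rw [hσ]; exact hx))
    refine ⟨⟨r, ?_⟩, hr'⟩
    rw [mem_EE]
    intro σ hσ
    rw [hr']
    exact hfix σ hσ
  have hmon : (∏ y ∈ Ξ, (X - C y) : U[X]).Monic := monic_prod_of_monic _ _ (fun y _ => monic_X_sub_C y)
  have hdeg : (∏ y ∈ Ξ, (X - C y) : U[X]).natDegree = Ξ.card := by
    rw [natDegree_prod_of_monic _ _ (fun y _ => monic_X_sub_C y)]
    simp
  obtain ⟨R, hR1, hR2, hR3⟩ := lifts_and_natDegree_eq_and_monic hlift hmon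
  have hroot : aeval (RatFunc.X : RatFunc k) R = 0 := by
    apply (ev : RatFunc k →+* U).injective
    change ev (aeval (RatFunc.X : RatFunc k) R) = ev 0
    rw [ev_aeval, ← eval_map, hR1, map_zero, eval_prod]
    exact Finset.prod_eq_zero hx (by simp)
  have hint : IsIntegral E (RatFunc.X : RatFunc k) := ⟨R, hR3, hroot⟩
  -- the degree
  have hfr : Module.finrank E (RatFunc k) = (minpoly E (RatFunc.X : RatFunc k)).natDegree := by
    rw [← (RatFunc.IntermediateField.adjoinXEquiv E).toLinearEquiv.finrank_eq,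
      adjoin.finrank hint]
  have hle : (minpoly E (RatFunc.X : RatFunc k)).natDegree ≤ Ξ.card := by
    rw [← hdeg, ← hR2]
    exact natDegree_le_natDegree (minpoly.min E _ hR3 hroot)
  have hge : Ξ.card ≤ (minpoly E (RatFunc.X : RatFunc k)).natDegree := by
    have hm0 : (minpoly E (RatFunc.X : RatFunc k)).map (io ev Ξ) ≠ 0 :=
      (Polynomial.map_ne_zero_iff (io ev Ξ).injective).mpr (minpoly.ne_zero hint)
    rw [← natDegree_map (io ev Ξ)]
    apply card_le_degree_of_subset_roots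
    intro y hy
    rw [mem_roots hm0, IsRoot.def, eval_map]
    obtain ⟨σ, hσ⟩ := hF3 _ y hxr (hr y hy)
    have hcomp : (σ : U →+* U).comp (io ev Ξ) = io ev Ξ := by
      ext a
      exact a.2 σ (by rw [hσ]; exact hy)
    have h1 := Polynomial.hom_eval₂ (minpoly E (RatFunc.X : RatFunc k)) (io ev Ξ) (σ : U →+* U)
      (ev RatFunc.X)
    rw [hcomp, ← ev_aeval, minpoly.aeval, map_zero, map_zero] at h1
    have h2 : (σ : U →+* U) (ev RatFunc.X) = y := hσ
    rw [h2] at h1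
    exact h1.symm
  -- Lueroth
  obtain ⟨θ, hθ⟩ : ∃ θ : RatFunc k, E = k⟮θ⟯ := ⟨_, RatFunc.Luroth.eq_adjoin_generator⟩
  have hmax : max θ.num.natDegree θ.denom.natDegree = Ξ.card := by
    have h1 := RatFunc.finrank_eq_max_natDegree θ
    rw [← hθ] at h1
    rw [← h1, hfr]
    exact le_antisymm hle hge
  have hcard : 1 ≤ Ξ.card := Finset.card_pos.mpr ⟨_, hx⟩
  have hθe : rf θ.num / rf θ.denom = θ := RatFunc.num_div_denom θ
  have hθm : θ ∈ E := by
    rw [hθ]
    exact mem_adjoin_simple_self k θ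
  refine ⟨θ.num, θ.denom, RatFunc.isCoprime_num_denom θ, ?_, hmax, ?_, ?_⟩
  · intro h0
    have h1 : wronskian θ.num θ.denom = 0 := by
      have : wronskian θ.num θ.denom = - wr θ.num θ.denom := by
        unfold wronskian wr
        ring
      rw [this, h0, neg_zero]
    obtain ⟨h2, h3⟩ := (RatFunc.isCoprime_num_denom θ).wronskian_eq_zero_iff.mp h1
    have h4 := derivative_eq_zero.mp h2
    have h5 := derivative_eq_zero.mp h3
    rw [h4, h5] at hmax
    simp at hmax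
    omega
  · intro σ hσ
    rw [hθe]
    exact hθm σ hσ
  · intro φ hφ
    rw [hθe]
    have hφm : φ ∈ k⟮θ⟯ := by
      rw [← hθ]
      exact hφ
    obtain ⟨N, M, hNM⟩ := (mem_adjoin_simple_iff k φ).mp hφm
    by_cases h0 : aeval θ M = 0
    · refine ⟨0, 1, one_ne_zero, ?_⟩
      rw [h0, div_zero] at hNM
      rw [hNM]
      simp
    · refine ⟨N, M, ?_, ?_⟩
      · rintro rfl
        exact h0 (map_zero _)
      · rw [hNM, div_mul_cancel₀ _ h0]

end Pool.Agent.COV.H68
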